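import Mathlib
import Pool.Agent.H567R3.OF.Comp

set_option autoImplicit false

/-!
# `{1,4}`-factors: the asymptotic version for connected graphs implies the exact one

If every large connected 5-regular graph on `n` vertices has a spanning subgraph with at most
`ε n` vertices of degree outside `{1, 4}` (for every `ε > 0`), then every 5-regular graph has a
`{1,4}`-factor.
-/

namespace Pool.Agent.Results.MP_39c6f6_co.AsymptoticImpliesExact

open Pool.Agent.H567R3.OF

/-- The number of vertices whose degree in `F` is neither `1` nor `4`. -/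
noncomputable def badCount {V : Type} (F : SimpleGraph V) : ℕ :=
  {v : V | ¬ ((F.neighborSet v).ncard = 1 ∨ (F.neighborSet v).ncard = 4)}.ncard

/-- Every 5-regular graph has a `{1,4}`-factor if and only if, for every `ε > 0`, every
sufficiently large connected 5-regular graph has a spanning subgraph in which at most `ε n`
vertices have degree outside `{1, 4}`. -/
theorem result :
    (∀ (V : Type) [Fintype V] (G : SimpleGraph V), (∀ v, (G.neighborSet v).ncard = 5) →
        ∃ H ≤ G, ∀ v, (H.neighborSet v).ncard = 1 ∨ (H.neighborSet v).ncard = 4) ↔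
      (∀ ε : ℝ, 0 < ε → ∃ n₀ : ℕ, ∀ (V : Type) [Fintype V] (G : SimpleGraph V), G.Connected →
        (∀ v, (G.neighborSet v).ncard = 5) → n₀ ≤ Fintype.card V →
        ∃ H ≤ G, (badCount H : ℝ) ≤ ε * Fintype.card V) := by
  constructor
  · intro h ε hε
    refine ⟨0, fun V _ G _ h5 _ => ?_⟩
    obtain ⟨H, hH, hg⟩ := h V G h5
    refine ⟨H, hH, ?_⟩
    have h0 : badCount H = 0 := by
      unfold badCount
      rw [Set.ncard_eq_zero (Set.toFinite _), Set.eq_empty_iff_forall_notMem]
      intro v hv
      exact hv (hg v)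
    rw [h0, Nat.cast_zero]
    positivity
  · intro h V _ G h5
    refine of_connected ?_ V G h5
    intro V _ G hGc h5
    by_contra hno
    have hpos : (0 : ℝ) < 6 * Fintype.card V + 4 := by positivity
    obtain ⟨n₀, hn₀⟩ := h (1 / (6 * Fintype.card V + 4)) (by positivity)
    obtain ⟨H, hc, h5', hbad⟩ := amplify V G hGc h5 hno n₀
    have hcard : Fintype.card (W (Fin (n₀ + 3)) V) = (n₀ + 3) * (6 * Fintype.card V + 4) := by
      rw [card_W, Fintype.card_fin]
    obtain ⟨F, hF, hle⟩ := hn₀ (W (Fin (n₀ + 3)) V) H hc h5' (by rw [hcard]; nlinarith)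
    have hb : 3 * (n₀ + 3) ≤ badCount F := hbad F hF
    rw [hcard] at hle
    push_cast at hle
    have h1 : (1 / (6 * (Fintype.card V : ℝ) + 4)) * (((n₀ : ℝ) + 3) * (6 * Fintype.card V + 4)) =
        (n₀ : ℝ) + 3 := by
      field_simp
    rw [h1] at hle
    have h2 : ((3 * (n₀ + 3) : ℕ) : ℝ) ≤ (badCount F : ℝ) := by exact_mod_cast hb
    push_cast at h2
    have h3 : (0 : ℝ) ≤ n₀ := by positivity
    linarith

end Pool.Agent.Results.MP_39c6f6_co.AsymptoticImpliesExact
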