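import Mathlib
import Pool.Agent.H567R3.OF.FamilyMain

set_option autoImplicit false

/-!
# `{1,4}`-factors of 5-regular graphs whose critical parts send at most three edges

The vertex set is split into `S`, `R` and classes `K`; there are no edges between different classes
or between `R` and the classes; `G[R]` has a perfect matching; every class is joined to `S` by
exactly one edge, or by exactly three edges with three different ends in `S`, and becomes perfectly
matchable after deleting the end of any of these edges; and `S` can be matched into different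
classes. Then the 5-regular graph `G` has a `{1,4}`-factor.
-/

namespace Pool.Agent.Results.MP_39c6f6_co.SmallOddParts

/-- The edges between `S` and the class `i`, written as pairs (end in `S`, end in the class). -/
def boundary {V ι : Type} (G : SimpleGraph V) (S R : Set V) (κ : V → ι) (i : ι) : Set (V × V) :=
  {p | p.1 ∈ S ∧ p.2 ∉ S ∧ p.2 ∉ R ∧ κ p.2 = i ∧ G.Adj p.1 p.2}

/-- `G` restricted to `A` has a perfect matching. -/
def Matchable {V : Type} (G : SimpleGraph V) (A : Set V) : Prop :=
  ∃ M : G.Subgraph, M.IsMatching ∧ M.verts = A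

theorem result {V ι : Type} [Fintype V] (G : SimpleGraph V)
    -- `G` is 5-regular
    (h5 : ∀ v, (G.neighborSet v).ncard = 5)
    -- disjoint sets `S`, `R`; the other vertices are split into classes by `κ`
    (S R : Set V) (κ : V → ι) (hSR : ∀ v ∈ S, v ∉ R)
    -- no edges between `R` and the classes, or between different classes
    (hR : ∀ u ∈ R, ∀ v, v ∉ S → v ∉ R → ¬ G.Adj u v)
    (hκ : ∀ u v, u ∉ S → u ∉ R → v ∉ S → v ∉ R → G.Adj u v → κ u = κ v)
    -- `R` has a perfect matching
    (hRM : Matchable G R)
    -- each class is joined to `S` by one edge, or by three edges with different ends in `S`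
    (hB : ∀ x, x ∉ S → x ∉ R → (boundary G S R κ (κ x)).ncard = 1 ∨
      ((boundary G S R κ (κ x)).ncard = 3 ∧ Set.InjOn Prod.fst (boundary G S R κ (κ x))))
    -- a class without the end of an edge to `S` has a perfect matching
    (hPM : ∀ s ∈ S, ∀ x, x ∉ S → x ∉ R → G.Adj s x →
      Matchable G {v | v ∉ S ∧ v ∉ R ∧ κ v = κ x ∧ v ≠ x})
    -- `S` can be matched into different classes
    (hS : ∃ r : V → V, ∀ s ∈ S, r s ∉ S ∧ r s ∉ R ∧ G.Adj s (r s) ∧
      ∀ s' ∈ S, κ (r s) = κ (r s') → s = s') :
    -- then `G` has a `{1,4}`-factor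
    ∃ H ≤ G, ∀ v, (H.neighborSet v).ncard = 1 ∨ (H.neighborSet v).ncard = 4 := by
  obtain ⟨r, hr⟩ := hS
  exact Pool.Agent.H567R3.OF.family G h5 S R hSR κ hR hκ hRM hB hPM r hr

end Pool.Agent.Results.MP_39c6f6_co.SmallOddParts
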